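import Mathlib
import Pool.Agent.Helper98.BH.Defs
import Pool.Agent.Helper98.BH.Defs2

/-!
# MP_59646b_lc, BH-1: bounded branches of a measurable closed condition
-/

set_option autoImplicit false

open MeasureTheory Set

namespace Pool.Agent.BH

namespace Sel

variable {W : Type} {ι : Type}

/-- the finite sequence followed by zeros -/
def pad (s : List ℕ) : Bai := fun i => s.getD i 0

theorem length_res (f : Bai) (n : ℕ) : (res f n).length = n := by simp [res]

theorem res_succ (f : Bai) (n : ℕ) : res f (n + 1) = res f n ++ [f n] := by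
  simp [res, List.range_succ]

theorem res_eq_iff (f g : Bai) (n : ℕ) : res f n = res g n ↔ ∀ i < n, f i = g i := by
  simp [res]

theorem pad_res (f : Bai) {n i : ℕ} (h : i < n) : pad (res f n) i = f i := by
  simp [pad, res, h]

theorem pad_res' (f : Bai) {n i : ℕ} (h : n ≤ i) : pad (res f n) i = 0 := by
  simp [pad, res, h]

/-- there is a solution through `t` bounded by the shifted `x` -/
def F (Φ : ι → W → Bai → Prop) (k : ℕ) (t : List ℕ) : Set (W × Inc) :=
  {p | ∃ f, (∀ j, Φ j p.1 f) ∧ (∀ n, f n ≤ p.2.1 (n + k)) ∧ res f t.length = t}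

/-- there is a dominated solution through `t` -/
def E (Φ : ι → W → Bai → Prop) (t : List ℕ) : Set (W × Inc) :=
  {p | ∃ f, (∀ j, Φ j p.1 f) ∧ Dom p.2 f ∧ res f t.length = t}

theorem E_eq (Φ : ι → W → Bai → Prop) (t : List ℕ) : E Φ t = ⋃ k, F Φ k t := by
  ext p
  simp only [E, F, mem_ofPred_eq, mem_iUnion, Dom]
  constructor
  · rintro ⟨f, h1, ⟨k, hk⟩, h2⟩
    exact ⟨k, f, h1, hk, h2⟩
  · rintro ⟨k, f, h1, hk, h2⟩
    exact ⟨f, h1, ⟨k, hk⟩, h2⟩

theorem isClosed_of_local {P : Bai → Prop} {N : ℕ}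
    (h : ∀ f f', (∀ i < N, f i = f' i) → (P f ↔ P f')) : IsClosed {f | P f} := by
  rw [← isOpen_compl_iff, isOpen_iff_forall_mem_open]
  intro f hf
  refine ⟨⋂ i ∈ Finset.range N, {f' : Bai | f' i = f i}, ?_, ?_, ?_⟩
  · intro f' hf' hP
    simp only [mem_iInter, Finset.mem_range, mem_ofPred_eq] at hf'
    exact hf ((h f f' fun i hi => (hf' i hi).symm).2 hP)
  · refine isOpen_biInter_finset fun i _ => ?_
    have h1 : IsOpen ({f i} : Set ℕ) := isOpen_discrete _
    exact h1.preimage (continuous_apply i : Continuous fun g : Bai => g i)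
  · simp

theorem mem_F_iff (Φ : ι → W → Bai → Prop)
    (hloc : ∀ j, ∃ N, ∀ w f f', (∀ i < N, f i = f' i) → (Φ j w f ↔ Φ j w f'))
    (k : ℕ) (t : List ℕ) (p : W × Inc) :
    p ∈ F Φ k t ↔ ∀ J : Finset ι, ∃ s : List ℕ, (∀ j ∈ J, Φ j p.1 (pad s)) ∧
      (∀ n, pad s n ≤ p.2.1 (n + k)) ∧ res (pad s) t.length = t := by
  choose N hN using hloc
  constructor
  · rintro ⟨f, h1, h2, h3⟩ J
    refine ⟨res f (max (J.sup N) t.length), ?_, ?_, ?_⟩
    · intro j hj
      refine (hN j p.1 f _ fun i hi => ?_).1 (h1 j)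
      exact (pad_res f (hi.trans_le ((Finset.le_sup hj).trans (le_max_left _ _)))).symm
    · intro n
      rcases lt_or_ge n (max (J.sup N) t.length) with h | h
      · rw [pad_res f h]; exact h2 n
      · rw [pad_res' f h]; exact Nat.zero_le _
    · conv_rhs => rw [← h3]
      rw [res_eq_iff]
      intro i hi
      exact pad_res f (hi.trans_le (le_max_right _ _))
  · intro h
    have hK : IsCompact (Set.pi univ fun n => Iic (p.2.1 (n + k)) : Set Bai) :=
      isCompact_univ_pi fun n => (finite_Iic _).isCompact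
    have hD : IsClosed {f : Bai | res f t.length = t} := by
      refine isClosed_of_local (N := t.length) fun f f' hff => ?_
      rw [(res_eq_iff f f' _).2 hff]
    have hC : ∀ j, IsClosed {f : Bai | Φ j p.1 f} := fun j =>
      isClosed_of_local (hN j p.1)
    obtain ⟨f, ⟨hf1, hf2⟩, hf3⟩ := (hK.inter_right hD).inter_iInter_nonempty _ hC fun J => by
      obtain ⟨s, h1, h2, h3⟩ := h J
      refine ⟨pad s, ⟨?_, h3⟩, ?_⟩
      · intro n _
        exact h2 n
      · simp only [mem_iInter, mem_ofPred_eq]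
        exact h1
    exact ⟨f, fun j => mem_iInter.1 hf3 j, fun n => hf1 n (mem_univ n), hf2⟩

variable [MeasurableSpace W]

theorem measurableSet_F [Countable ι] (Φ : ι → W → Bai → Prop)
    (hloc : ∀ j, ∃ N, ∀ w f f', (∀ i < N, f i = f' i) → (Φ j w f ↔ Φ j w f'))
    (hmeas : ∀ j f, MeasurableSet {w | Φ j w f}) (k : ℕ) (t : List ℕ) :
    MeasurableSet (F Φ k t) := by
  have h : F Φ k t = ⋂ J : Finset ι, ⋃ s : List ℕ,
      ({p : W × Inc | ∀ j ∈ J, Φ j p.1 (pad s)} ∩
      ({p : W × Inc | ∀ n, pad s n ≤ p.2.1 (n + k)} ∩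
        {p : W × Inc | res (pad s) t.length = t})) := by
    ext p
    rw [mem_F_iff Φ hloc]
    simp only [mem_iInter, mem_iUnion, mem_inter_iff, mem_ofPred_eq]
  rw [h]
  refine MeasurableSet.iInter fun J => MeasurableSet.iUnion fun s => ?_
  refine MeasurableSet.inter ?_ (MeasurableSet.inter ?_ (MeasurableSet.const _))
  · have h1 : {p : W × Inc | ∀ j ∈ J, Φ j p.1 (pad s)} =
        ⋂ j ∈ J, Prod.fst ⁻¹' {w | Φ j w (pad s)} := by
      ext p; simp
    rw [h1]
    exact Finset.measurableSet_biInter J fun j _ => (hmeas j _).preimage measurable_fst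
  · have h1 : {p : W × Inc | ∀ n, pad s n ≤ p.2.1 (n + k)} =
        ⋂ n, {p : W × Inc | pad s n ≤ p.2.1 (n + k)} := by
      ext p; simp
    rw [h1]
    refine MeasurableSet.iInter fun n => ?_
    have h2 : Measurable fun p : W × Inc => p.2.1 (n + k) :=
      (measurable_pi_apply _).comp (measurable_subtype_coe.comp measurable_snd)
    exact measurableSet_le measurable_const h2

theorem measurableSet_E [Countable ι] (Φ : ι → W → Bai → Prop)
    (hloc : ∀ j, ∃ N, ∀ w f f', (∀ i < N, f i = f' i) → (Φ j w f ↔ Φ j w f'))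
    (hmeas : ∀ j f, MeasurableSet {w | Φ j w f}) (t : List ℕ) :
    MeasurableSet (E Φ t) := by
  rw [E_eq]
  exact MeasurableSet.iUnion fun k => measurableSet_F Φ hloc hmeas k t

open Classical in
/-- the next value of the leftmost branch -/
noncomputable def nxt (Φ : ι → W → Bai → Prop) (t : List ℕ) (p : W × Inc) : ℕ :=
  if h : ∃ i, p ∈ E Φ (t ++ [i]) then Nat.find h else 0

omit [MeasurableSpace W] in
theorem nxt_spec (Φ : ι → W → Bai → Prop) (t : List ℕ) (p : W × Inc) (h : p ∈ E Φ t) :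
    p ∈ E Φ (t ++ [nxt Φ t p]) := by
  classical
  have h1 : ∃ i, p ∈ E Φ (t ++ [i]) := by
    obtain ⟨f, h1, h2, h3⟩ := h
    refine ⟨f t.length, f, h1, h2, ?_⟩
    rw [List.length_append, List.length_singleton, res_succ, h3]
  rw [nxt, dif_pos h1]
  exact Nat.find_spec h1

theorem measurable_nxt [Countable ι] (Φ : ι → W → Bai → Prop)
    (hloc : ∀ j, ∃ N, ∀ w f f', (∀ i < N, f i = f' i) → (Φ j w f ↔ Φ j w f'))
    (hmeas : ∀ j f, MeasurableSet {w | Φ j w f}) (t : List ℕ) : Measurable (nxt Φ t) := by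
  classical
  have hE := measurableSet_E Φ hloc hmeas
  have hp : ∀ p : W × Inc, ∃ i, p ∈ E Φ (t ++ [i]) ∨ ∀ i', p ∉ E Φ (t ++ [i']) := by
    intro p
    by_cases h : ∃ i, p ∈ E Φ (t ++ [i])
    · obtain ⟨i, hi⟩ := h
      exact ⟨i, Or.inl hi⟩
    · exact ⟨0, Or.inr fun i' hi' => h ⟨i', hi'⟩⟩
  have h1 : nxt Φ t = fun p => Nat.find (hp p) := by
    funext p
    rw [nxt]
    split_ifs with h
    · congr 1
      funext i
      simp only [eq_iff_iff]
      constructor
      · intro h2; exact Or.inl h2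
      · rintro (h2 | h2)
        · exact h2
        · obtain ⟨i', hi'⟩ := h
          exact absurd hi' (h2 i')
    · symm
      rw [Nat.find_eq_zero]
      exact Or.inr fun i' hi' => h ⟨i', hi'⟩
  rw [h1]
  refine measurable_find hp fun i => ?_
  have h2 : {p : W × Inc | p ∈ E Φ (t ++ [i]) ∨ ∀ i', p ∉ E Φ (t ++ [i'])} =
      E Φ (t ++ [i]) ∪ ⋂ i', (E Φ (t ++ [i']))ᶜ := by
    ext p; simp
  rw [h2]
  exact (hE _).union (MeasurableSet.iInter fun i' => (hE _).compl)

/-- the finite parts of the leftmost branch -/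
noncomputable def L (Φ : ι → W → Bai → Prop) (p : W × Inc) : ℕ → List ℕ
  | 0 => []
  | n + 1 => L Φ p n ++ [nxt Φ (L Φ p n) p]

omit [MeasurableSpace W] in
theorem length_L (Φ : ι → W → Bai → Prop) (p : W × Inc) (n : ℕ) : (L Φ p n).length = n := by
  induction n with
  | zero => rfl
  | succ n ih => rw [L, List.length_append, List.length_singleton, ih]

theorem measurable_L [Countable ι] (Φ : ι → W → Bai → Prop)
    (hloc : ∀ j, ∃ N, ∀ w f f', (∀ i < N, f i = f' i) → (Φ j w f ↔ Φ j w f'))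
    (hmeas : ∀ j f, MeasurableSet {w | Φ j w f}) (n : ℕ) (t : List ℕ) :
    MeasurableSet {p | L Φ p n = t} := by
  induction n generalizing t with
  | zero =>
    have h : {p : W × Inc | L Φ p 0 = t} = {p | [] = t} := rfl
    rw [h]
    exact MeasurableSet.const _
  | succ n ih =>
    have h : {p | L Φ p (n + 1) = t} =
        ⋃ s : List ℕ, ({p | L Φ p n = s} ∩ {p | s ++ [nxt Φ s p] = t}) := by
      ext p
      simp only [L, mem_ofPred_eq, mem_iUnion, mem_inter_iff, exists_eq_left']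
    rw [h]
    refine MeasurableSet.iUnion fun s => (ih s).inter ?_
    have h1 : Measurable (nxt Φ s) := measurable_nxt Φ hloc hmeas s
    exact h1 (MeasurableSet.of_discrete (s := {i | s ++ [i] = t}))

/-- the leftmost branch -/
noncomputable def sel (Φ : ι → W → Bai → Prop) (p : W × Inc) : Bai := fun n => nxt Φ (L Φ p n) p

omit [MeasurableSpace W] in
theorem res_sel (Φ : ι → W → Bai → Prop) (p : W × Inc) (n : ℕ) :
    res (sel Φ p) n = L Φ p n := by
  induction n with
  | zero => rfl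
  | succ n ih => rw [res_succ, ih, L, sel]

theorem measurable_sel [Countable ι] (Φ : ι → W → Bai → Prop)
    (hloc : ∀ j, ∃ N, ∀ w f f', (∀ i < N, f i = f' i) → (Φ j w f ↔ Φ j w f'))
    (hmeas : ∀ j f, MeasurableSet {w | Φ j w f}) : Measurable (sel Φ) := by
  refine measurable_pi_lambda _ fun n => ?_
  refine measurable_to_countable' fun i => ?_
  have h : (fun p => sel Φ p n) ⁻¹' {i} =
      ⋃ s : List ℕ, ({p | L Φ p n = s} ∩ {p | nxt Φ s p = i}) := by
    ext p
    simp only [sel, mem_preimage, mem_singleton_iff, mem_ofPred_eq, mem_iUnion, mem_inter_iff,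
      exists_eq_left']
  rw [h]
  refine MeasurableSet.iUnion fun s => (measurable_L Φ hloc hmeas n s).inter ?_
  exact (measurable_nxt Φ hloc hmeas s) (measurableSet_singleton i)

omit [MeasurableSpace W] in
theorem mem_E_shift (Φ : ι → W → Bai → Prop) (t : List ℕ) (w : W) (x : Inc) :
    (w, shift x) ∈ E Φ t ↔ (w, x) ∈ E Φ t := by
  simp only [E, mem_ofPred_eq, dom_shift]

omit [MeasurableSpace W] in
theorem nxt_shift (Φ : ι → W → Bai → Prop) (t : List ℕ) (w : W) (x : Inc) :
    nxt Φ t (w, shift x) = nxt Φ t (w, x) := by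
  have h : ∀ i, ((w, shift x) ∈ E Φ (t ++ [i])) = ((w, x) ∈ E Φ (t ++ [i])) := fun i =>
    propext (mem_E_shift Φ _ w x)
  unfold nxt
  split_ifs with h1 h2 h2
  · congr 1
    funext i
    exact h i
  · exact absurd (h1.imp fun i hi => (h i).mp hi) h2
  · exact absurd (h2.imp fun i hi => (h i).mpr hi) h1
  · rfl

omit [MeasurableSpace W] in
theorem L_shift (Φ : ι → W → Bai → Prop) (w : W) (x : Inc) (n : ℕ) :
    L Φ (w, shift x) n = L Φ (w, x) n := by
  induction n with
  | zero => rfl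
  | succ n ih => rw [L, L, ih, nxt_shift]

end Sel

open Sel in
/-- BH-1 -/
theorem exists_sel {W : Type} [MeasurableSpace W] {ι : Type} [Countable ι]
    (Φ : ι → W → Bai → Prop)
    (hloc : ∀ j, ∃ N, ∀ w f f', (∀ i < N, f i = f' i) → (Φ j w f ↔ Φ j w f'))
    (hmeas : ∀ j f, MeasurableSet {w | Φ j w f}) :
    MeasurableSet {p : W × Inc | ∃ f, (∀ j, Φ j p.1 f) ∧ Dom p.2 f} ∧
    ∃ sel : W × Inc → Bai, Measurable sel ∧ (∀ w x, sel (w, shift x) = sel (w, x)) ∧
      ∀ w x, (∃ f, (∀ j, Φ j w f) ∧ Dom x f) → ∀ j, Φ j w (sel (w, x)) := by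
  have hE0 : ∀ p : W × Inc, (∃ f, (∀ j, Φ j p.1 f) ∧ Dom p.2 f) ↔ p ∈ E Φ [] := by
    intro p
    constructor
    · rintro ⟨f, h1, h2⟩
      exact ⟨f, h1, h2, rfl⟩
    · rintro ⟨f, h1, h2, _⟩
      exact ⟨f, h1, h2⟩
  refine ⟨?_, Sel.sel Φ, measurable_sel Φ hloc hmeas, ?_, ?_⟩
  · have h : {p : W × Inc | ∃ f, (∀ j, Φ j p.1 f) ∧ Dom p.2 f} = E Φ [] := by
      ext p
      exact hE0 p
    rw [h]
    exact measurableSet_E Φ hloc hmeas []
  · intro w x
    funext n
    rw [Sel.sel, Sel.sel, L_shift, nxt_shift]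
  · intro w x h j
    have h0 : (w, x) ∈ E Φ [] := (hE0 (w, x)).1 h
    have h1 : ∀ n, (w, x) ∈ E Φ (L Φ (w, x) n) := by
      intro n
      induction n with
      | zero => exact h0
      | succ n ih => exact nxt_spec Φ _ _ ih
    obtain ⟨N, hN⟩ := hloc j
    obtain ⟨f, hf1, _, hf3⟩ := h1 N
    refine (hN w f _ ?_).1 (hf1 j)
    rw [length_L, ← res_sel, res_eq_iff] at hf3
    exact hf3

end Pool.Agent.BH
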