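import Mathlib
import Pool.Agent.Helper98.BH.Defs
import Pool.Agent.Helper98.BH.Defs2
import Pool.Agent.Helper19.BH.Sel
import Pool.Agent.Helper72.BH.Tree

/-!
# MP_59646b_lc, BH-8a: joint measurability of the two graphs
-/

set_option autoImplicit false

namespace Pool.Agent.BH

open MeasureTheory

namespace MeasBC

/-- first components -/
def un1 (f : Bai) : Bai := fun n => (Nat.unpair (f n)).1

/-- second components -/
def un2 (f : Bai) : Bai := fun n => (Nat.unpair (f n)).2

theorem pairB_un (f : Bai) : pairB (un1 f) (un2 f) = f := by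
  funext n
  simp [pairB, un1, un2]

theorem un1_pairB (s h : Bai) : un1 (pairB s h) = s := by
  funext n
  simp [pairB, un1]

theorem un2_pairB (s h : Bai) : un2 (pairB s h) = h := by
  funext n
  simp [pairB, un2]

theorem exists_bound (l : List (List ℕ)) : ∃ N, ∀ c ∈ l, Encodable.encode c < N := by
  refine ⟨l.toFinset.sup Encodable.encode + 1, fun c hc => Nat.lt_succ_of_le ?_⟩
  exact Finset.le_sup (f := Encodable.encode) (List.mem_toFinset.2 hc)

theorem map_str_congr {l : List (List ℕ)} {N : ℕ} (hN : ∀ c ∈ l, Encodable.encode c < N)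
    {h h' : Bai} (hh : ∀ i < N, h i = h' i) : l.map (str h) = l.map (str h') := by
  refine List.map_congr_left fun c hc => ?_
  exact hh _ (hN c hc)

theorem un1_congr {N : ℕ} {f f' : Bai} (hf : ∀ i < N, f i = f' i) : ∀ i < N, un1 f i = un1 f' i :=
  fun i hi => by rw [un1, un1, hf i hi]

theorem un2_congr {N : ℕ} {f f' : Bai} (hf : ∀ i < N, f i = f' i) : ∀ i < N, un2 f i = un2 f' i :=
  fun i hi => by rw [un2, un2, hf i hi]

theorem imp_measurable {X : Type*} [MeasurableSpace X] {P Q : X → Prop}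
    (hP : MeasurableSet {x | P x}) (hQ : MeasurableSet {x | Q x}) :
    MeasurableSet {x | P x → Q x} := by
  have h : {x | P x → Q x} = {x | P x}ᶜ ∪ {x | Q x} := by
    ext x
    simp only [Set.mem_ofPred_eq, Set.mem_union, Set.mem_compl_iff]
    tauto
  rw [h]
  exact hP.compl.union hQ

/-- the conditions for `B` -/
def PhiB (b : List ℕ) (w : (Bai × Bai) × Bai) (f : Bai) : Prop :=
  b ∈ T2 w.1 (un1 f) → b.inits.map (str (un2 f)) ∈ T1 w.1 w.2

/-- the conditions for `C` -/
def PhiC (b : List ℕ) (w : (Bai × Bai) × Bai) (f : Bai) : Prop :=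
  b ∈ T1 w.1 (un1 f) → b.inits.tail.map (str (un2 f)) ∈ T2 w.1 w.2

theorem PhiB_local (b : List ℕ) : ∃ N, ∀ w f f', (∀ i < N, f i = f' i) →
    (PhiB b w f ↔ PhiB b w f') := by
  obtain ⟨N, hN⟩ := exists_bound b.inits
  refine ⟨max N b.length, fun w f f' hf => ?_⟩
  have h1 : b ∈ T2 w.1 (un1 f) ↔ b ∈ T2 w.1 (un1 f') :=
    Tr_congr _ _ _ _ _ _ fun i hi => un1_congr hf i (hi.trans_le (le_max_right _ _))
  have h2 : b.inits.map (str (un2 f)) = b.inits.map (str (un2 f')) :=
    map_str_congr hN fun i hi => un2_congr hf i (hi.trans_le (le_max_left _ _))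
  rw [PhiB, PhiB, h1, h2]

theorem PhiC_local (b : List ℕ) : ∃ N, ∀ w f f', (∀ i < N, f i = f' i) →
    (PhiC b w f ↔ PhiC b w f') := by
  obtain ⟨N, hN⟩ := exists_bound b.inits.tail
  refine ⟨max N b.length, fun w f f' hf => ?_⟩
  have h1 : b ∈ T1 w.1 (un1 f) ↔ b ∈ T1 w.1 (un1 f') :=
    Tr_congr _ _ _ _ _ _ fun i hi => un1_congr hf i (hi.trans_le (le_max_right _ _))
  have h2 : b.inits.tail.map (str (un2 f)) = b.inits.tail.map (str (un2 f')) :=
    map_str_congr hN fun i hi => un2_congr hf i (hi.trans_le (le_max_left _ _))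
  rw [PhiC, PhiC, h1, h2]

theorem T1_meas {X : Type*} [MeasurableSpace X] {F : X → Bai × Bai} {G : X → Bai}
    (hF : Measurable F) (hG : Measurable G) (t : List ℕ) :
    MeasurableSet {x | t ∈ T1 (F x) (G x)} :=
  (measurableSet_Tr t).preimage
    (hF.fst.prodMk (hF.fst.prodMk (hF.snd.prodMk hG)))

theorem T2_meas {X : Type*} [MeasurableSpace X] {F : X → Bai × Bai} {G : X → Bai}
    (hF : Measurable F) (hG : Measurable G) (t : List ℕ) :
    MeasurableSet {x | t ∈ T2 (F x) (G x)} :=
  (measurableSet_Tr t).preimage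
    (hF.snd.prodMk (hF.fst.prodMk (hF.snd.prodMk hG)))

theorem PhiB_meas (b : List ℕ) (f : Bai) : MeasurableSet {w | PhiB b w f} :=
  imp_measurable (T2_meas measurable_fst measurable_const _)
    (T1_meas measurable_fst measurable_snd _)

theorem PhiC_meas (b : List ℕ) (f : Bai) : MeasurableSet {w | PhiC b w f} :=
  imp_measurable (T1_meas measurable_fst measurable_const _)
    (T2_meas measurable_fst measurable_snd _)

theorem meas_map : Measurable fun q : (Bai × Bai) × (Bai × Inc) => ((q.1, q.2.1), q.2.2) :=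
  (measurable_fst.prodMk measurable_snd.fst).prodMk measurable_snd.snd

end MeasBC

open MeasBC

/-- BH-8a -/
theorem measurableSet_B :
    MeasurableSet {q : (Bai × Bai) × (Bai × Inc) | q.2 ∈ B q.1} := by
  have h := (exists_sel PhiB PhiB_local PhiB_meas).1
  have h2 : {q : (Bai × Bai) × (Bai × Inc) | q.2 ∈ B q.1} =
      ((fun q : (Bai × Bai) × (Bai × Inc) => ((q.1, q.2.1), q.2.2)) ⁻¹'
        {p : ((Bai × Bai) × Bai) × Inc | ∃ f, (∀ j, PhiB j p.1 f) ∧ Dom p.2 f})ᶜ := by
    ext q
    simp only [B, Set.mem_ofPred_eq, Set.mem_compl_iff, Set.mem_preimage, not_exists, not_and]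
    constructor
    · intro hq f hf hd
      refine hq (un1 f) (un2 f) (fun b hb => hf b hb) ?_
      rw [pairB_un]
      exact hd
    · intro hq s h hs hd
      refine hq (pairB s h) (fun b hb => ?_) hd
      rw [un1_pairB] at hb
      rw [un2_pairB]
      exact hs b hb
  rw [h2]
  exact (h.preimage meas_map).compl

/-- BH-8a -/
theorem measurableSet_C :
    MeasurableSet {q : (Bai × Bai) × (Bai × Inc) | q.2 ∈ C q.1} := by
  have h := (exists_sel PhiC PhiC_local PhiC_meas).1
  have h2 : {q : (Bai × Bai) × (Bai × Inc) | q.2 ∈ C q.1} =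
      ((fun q : (Bai × Bai) × (Bai × Inc) => ((q.1, q.2.1), q.2.2)) ⁻¹'
        {p : ((Bai × Bai) × Bai) × Inc | ∃ f, (∀ j, PhiC j p.1 f) ∧ Dom p.2 f})ᶜ := by
    ext q
    simp only [C, Set.mem_ofPred_eq, Set.mem_compl_iff, Set.mem_preimage, not_exists, not_and]
    constructor
    · intro hq f hf hd
      refine hq (un1 f) (un2 f) (fun b hb => hf b hb) ?_
      rw [pairB_un]
      exact hd
    · intro hq s h hs hd
      refine hq (pairB s h) (fun b hb => ?_) hd
      rw [un1_pairB] at hb
      rw [un2_pairB]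
      exact hs b hb
  rw [h2]
  exact (h.preimage meas_map).compl

end Pool.Agent.BH
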